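import Pool.Agent.Run7.h231.Fin3

/-! Stable Ramsey's theorem for pairs and two colours does not imply, over `RCA₀`, the
Ramsey-type weak Koenig lemma for all numbers of colours: a full negative answer to Q1. -/

namespace Pool.Agent.Results.MP_674835_lc.Separation

open Run7.h231

/-- There is a model of `RCA₀` and `SRT²₂` with an element `k > 0` of its first-order part for
which `RWKL_k` fails. -/
theorem result : ∃ 𝓜 : L2Model, RCA0 𝓜 ∧ 𝓜.SRT22 ∧ ∃ k : 𝓜.M, 𝓜.lt 𝓜.zero k ∧ ¬ 𝓜.RWKL k :=
  Run7.h231.main

end Pool.Agent.Results.MP_674835_lc.Separation
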